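import Pool.Agent.H91.OP.Base
import Pool.Agent.H67.PF.Prim

/-! The pole at the edge: primitive fields suffice. -/

set_option autoImplicit false
set_option linter.unusedSectionVars false

namespace Pool.Agent.H39.TP

open NumberField IsDedekindDomain Pool.Agent.W353.NF Pool.Agent.W401.Cheb Pool.Agent.Q5.BR
open Pool.Agent.H91.OP Pool.Agent.H67.Primitive Pool.Agent.Q5.VL

section
variable {K : Type} [Field K] [NumberField K]

/-- Tate's formula from a relation -/
theorem tate_of_relation {F : Type} [Field F] [NumberField F] [Algebra K F] {ι : Type} [Fintype ι]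
    {Y : ι → Ext F} [∀ j, Algebra K (Y j).F] [∀ j, IsScalarTower K F (Y j).F] {n : ι → ℤ}
    (hrel : ∀ σ : GK F, ∑ j, n j * (fixn F (Y j).F σ : ℤ) = 1)
    {q : ℕ} {X : Set (MvPolynomial (Fin q) (𝓞 K))} {d m N : ℕ} (hmd : m ≤ d)
    {V : Type} [AddCommGroup V] [Module ℚ V] [FiniteDimensional ℚ V]
    {ρ : Representation ℚ Gal(AlgebraicClosure K/K) V}
    (h : ∀ j, Tate X d m N ρ (Y j).F) : Tate X d m N ρ F := by
  have h1 := rank_relation_up (F := F) ρ (Y := Y) (n := n) (m := 1) hrel
    (fun _ _ => inferInstance)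
  unfold Tate
  rw [poleOrder_iff]
  intro T B hB
  have h2 := order_rel (K₀ := K) (K := F) (Y := Y) (nn := n) (X := X) (d := d)
    (i := 2 * m) (N := N) hrel (by omega) (fun j => (Pool.Agent.Q5.VL.rk ρ (Y j).F : ℤ))
    (fun j => by
      have h3 := h j
      unfold Tate at h3
      rw [rank_eq] at h3
      exact poleOrder_iff.1 h3) hB
  rw [h1, one_mul] at h2
  rw [rank_eq]
  exact h2

/-- all extensions -/
theorem tate_all {r : ℕ} (hr : Odd r) (h3 : 3 ≤ r)
    (S : ∀ (F : Type) [Field F] [NumberField F] [Algebra K F], Finset (HeightOneSpectrum (𝓞 F)))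
    {q : ℕ} {X : Set (MvPolynomial (Fin q) (𝓞 K))} {d m N : ℕ} (hmd : m ≤ d)
    {V : Type} [AddCommGroup V] [Module ℚ V] [FiniteDimensional ℚ V]
    {ρ : Representation ℚ Gal(AlgebraicClosure K/K) V}
    (h : ∀ (F F' : Type) [Field F] [NumberField F] [Algebra K F] [Field F'] [NumberField F']
      [Algebra K F'] [Algebra F F'] [IsScalarTower K F F'], SpecialExtension r (S F) F' →
        Tate X d m N ρ F')
    (F : Type) [Field F] [NumberField F] [Algebra K F] : Tate X d m N ρ F := by
  obtain ⟨L, _, _, _, F', hF⟩ := exists_primitive_relation F hr h3 (S F)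
  let Y : Fin r → Ext F := fun k => ⟨F' k⟩
  let _ : ∀ j, Algebra K (Y j).F := fun j =>
    ((algebraMap F (Y j).F).comp (algebraMap K F)).toAlgebra
  have ht : ∀ j, IsScalarTower K F (Y j).F := fun j =>
    IsScalarTower.of_algebraMap_eq fun x => rfl
  exact tate_of_relation (Y := Y) (fun σ => hF.fixn σ) hmd fun k =>
    h F (Y k).F (hF.special k)

end

/-- classes of varieties -/
theorem tateFor_all {r : ℕ} (hr : Odd r) (h3 : 3 ≤ r)
    (S : ∀ (F : Type) [Field F] [NumberField F], Finset (HeightOneSpectrum (𝓞 F)))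
    {𝒱 : VarietyClass} (h𝒱 : ClosedUnderExtension 𝒱)
    (h : ∀ (F F' : Type) [Field F] [NumberField F] [Field F'] [NumberField F'] [Algebra F F'],
      SpecialExtension r (S F) F' → TateFor 𝒱 F')
    (K : Type) [Field K] [NumberField K] : TateFor 𝒱 K := by
  intro q X d m N V _ _ ρ hX
  obtain ⟨hmd, hV, hF⟩ := h𝒱 K q X d m N V ρ hX
  obtain ⟨L, _, _, _, F', hF'⟩ := exists_primitive_relation K hr h3 (S K)
  refine tate_of_relation (F := K) (Y := fun k => (⟨F' k⟩ : Ext K)) (fun σ => hF'.fixn σ) hmd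
    fun k => ?_
  exact (tate_baseChange X d m N ρ).1 (h K (F' k) (hF'.special k) q _ d m N V _ (hF (F' k)))

end Pool.Agent.H39.TP
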